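import Pool.Agent.Lib.MP_799fdf_al.Exi.Stm
import Pool.Agent.Lib.MP_799fdf_al.Tz.FinU

/-! # The canonical lifting system: definitions -/

set_option autoImplicit false

open scoped commutatorElement

namespace MP799fdf

namespace Exi

open Inn
open Cop (TT TA)
open Tw (TB TC)
open Tz (CZ)

/-- the index set: the isomorphisms from `G / C(R)` to the groups `G / C(R')` -/
abbrev Ix {G : Type} [Group G] (τ : TT G) : Type := (τ' : TT G) × (TA G τ ≃* TA G τ')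

/-- the families `x` with `x (R', σ) ∈ R'` in the coset `σ (r Z)`, for some `r ∈ R` -/
def PP {G : Type} [Group G] (τ : TT G) : Subgroup (Ix τ → G) where
  carrier := {x | ∃ r ∈ τ.1.1, ∀ i : Ix τ, x i ∈ i.1.1.1 ∧
    ((x i : G) : TA G i.1) = i.2 ((r : G) : TA G τ)}
  one_mem' := ⟨1, τ.1.1.one_mem, fun i => ⟨i.1.1.1.one_mem, by
    rw [Pi.one_apply, QuotientGroup.mk_one, QuotientGroup.mk_one, map_one]⟩⟩
  mul_mem' := by
    rintro x y ⟨r, hr, hx⟩ ⟨s, hs, hy⟩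
    refine ⟨r * s, τ.1.1.mul_mem hr hs, fun i => ⟨i.1.1.1.mul_mem (hx i).1 (hy i).1, ?_⟩⟩
    rw [Pi.mul_apply, QuotientGroup.mk_mul, QuotientGroup.mk_mul, map_mul, (hx i).2, (hy i).2]
  inv_mem' := by
    rintro x ⟨r, hr, hx⟩
    refine ⟨r⁻¹, τ.1.1.inv_mem hr, fun i => ⟨i.1.1.1.inv_mem (hx i).1, ?_⟩⟩
    rw [Pi.inv_apply, QuotientGroup.mk_inv, QuotientGroup.mk_inv, map_inv, (hx i).2]

/-- the group `U` -/
def UU {G : Type} [Group G] (τ : TT G) : Subgroup (Ix τ → G) := ⁅PP τ, PP τ⁆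

/-- the coordinate at `(R, id)` -/
def pp {G : Type} [Group G] (τ : TT G) : UU τ →* G :=
  (Pi.evalMonoidHom (fun _ => G) (⟨τ, MulEquiv.refl _⟩ : Ix τ)).comp (UU τ).subtype

theorem pp_apply {G : Type} [Group G] (τ : TT G) (u : UU τ) :
    pp τ u = (u : Ix τ → G) ⟨τ, MulEquiv.refl _⟩ := rfl

theorem isLocal_iff {G : Type} [Group G] (R N : Subgroup G) : IsLocal R N ↔ Loc R N :=
  ⟨fun ⟨h1, h2, h3, h4, h5⟩ => ⟨h1, h2, h3, h4, h5⟩, fun h => ⟨h.nR, h.nN, h.lt, h.perf, h.max⟩⟩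

theorem loc_unique {G : Type} [Group G] {R N N' : Subgroup G} (h : Loc R N) (h' : Loc R N') :
    N = N' := by
  have h1 : N ≤ N' := (h'.max N h.nN h.lt.le).resolve_right h.lt.ne
  have h2 : N' ≤ N := (h.max N' h'.nN h'.lt.le).resolve_right h'.lt.ne
  exact le_antisymm h1 h2

end Exi

end MP799fdf
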