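import Pool.Agent.Lib.MP_799fdf_al.Exi.X5
import Pool.Agent.Lib.MP_799fdf_al.Cov.Fin
import Pool.Agent.Lib.MP_799fdf_al.Str.C2

/-! # The criterion -/

set_option autoImplicit false

open scoped commutatorElement

namespace MP799fdf

namespace Exi

open Inn
open Cop (TT TA)
open Tw (TB TC)
open Tz (CZ)

/-- There is a lifting system in which only the identity is killed by all lifts. -/
theorem exists_sys {G : Type} [Group G] [Finite G] (h1 : CZ G) :
    ∃ (U : Subgroup G → Type) (_ : ∀ R, Group (U R)) (_ : ∀ R, Finite (U R))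
      (f : ∀ R, U R →* G), LiftSys G U f ∧
        ∀ R N : Subgroup G, IsLocal R N → ∀ u : U R,
          (∀ (N' Z R' Z' : Subgroup G) [Z.Normal] [Z'.Normal], IsLocal R' N' →
            Z = Subgroup.centralizer (R : Set G) → Z' = Subgroup.centralizer (R' : Set G) →
              ∀ (σ : (G ⧸ Z) ≃* (G ⧸ Z')) (b : U R ≃* U R'), IsLift (f R) (f R') σ b →
                f R' (b u) = 1) → u = 1 := by
  obtain ⟨U, iG, iF, f, he⟩ := exists_fam (G := G)
  have hZ : ∀ τ : TT G, cen τ.1.1 τ.1.2 τ.2.nN = Subgroup.centralizer (τ.1.1 : Set G) := fun τ =>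
    Tz.cen_eq τ.2 (h1 _ _ τ.2)
  choose e he using he
  refine ⟨U, iG, iF, f, ⟨?_, ?_, ?_, ?_⟩, ?_⟩
  · intro R N hRN
    obtain ⟨τ, hτ⟩ : ∃ τ : TT G, τ = ⟨(R, N), (isLocal_iff R N).1 hRN⟩ := ⟨_, rfl⟩
    obtain rfl : R = τ.1.1 := by rw [hτ]
    have h4 := congrArg (Subgroup.map (e τ).symm.toMonoidHom) (uu_perf h1 τ)
    rw [Subgroup.map_commutator, ← MonoidHom.range_eq_map,
      MonoidHom.range_eq_top.2 (e τ).symm.surjective] at h4
    exact h4
  · intro R N hRN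
    obtain ⟨τ, hτ⟩ : ∃ τ : TT G, τ = ⟨(R, N), (isLocal_iff R N).1 hRN⟩ := ⟨_, rfl⟩
    obtain rfl : R = τ.1.1 := by rw [hτ]
    refine Eq.trans ?_ (pp_range τ)
    ext x
    constructor
    · rintro ⟨u, rfl⟩
      exact ⟨_, (he τ u).symm⟩
    · rintro ⟨v, rfl⟩
      refine ⟨(e τ).symm v, ?_⟩
      rw [he, MulEquiv.apply_symm_apply]
  · intro R N hRN u hu v
    obtain ⟨τ, hτ⟩ : ∃ τ : TT G, τ = ⟨(R, N), (isLocal_iff R N).1 hRN⟩ := ⟨_, rfl⟩
    obtain rfl : R = τ.1.1 := by rw [hτ]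
    have hu' : f τ.1.1 u ∈ cen τ.1.1 τ.1.2 τ.2.nN := by
      rw [hZ τ]
      exact hu
    have h5 := uu_cent h1 τ (e τ u) (by rw [← he]; exact (QuotientGroup.eq_one_iff _).2 hu')
      (e τ v)
    rw [← map_mul, ← map_mul] at h5
    exact (e τ).injective h5
  · intro R N Z R' N' Z' _ _ hRN hRN' hZ1 hZ2 σ
    obtain ⟨τ, hτ⟩ : ∃ τ : TT G, τ = ⟨(R, N), (isLocal_iff R N).1 hRN⟩ := ⟨_, rfl⟩
    obtain ⟨τ', hτ'⟩ : ∃ τ' : TT G, τ' = ⟨(R', N'), (isLocal_iff R' N').1 hRN'⟩ := ⟨_, rfl⟩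
    obtain rfl : R = τ.1.1 := by rw [hτ]
    obtain rfl : R' = τ'.1.1 := by rw [hτ']
    obtain rfl : Z = cen τ.1.1 τ.1.2 τ.2.nN := by rw [hZ1, hZ τ]
    obtain rfl : Z' = cen τ'.1.1 τ'.1.2 τ'.2.nN := by rw [hZ2, hZ τ']
    obtain ⟨b, hb⟩ := exists_lift τ τ' σ
    refine ⟨((e τ).trans b).trans (e τ').symm, fun u => ?_⟩
    rw [he τ', he τ]
    simp only [MulEquiv.trans_apply, MulEquiv.apply_symm_apply]
    exact lift_class τ τ' σ b hb (e τ u)
  · intro R N hRN u hu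
    obtain ⟨τ, hτ⟩ : ∃ τ : TT G, τ = ⟨(R, N), (isLocal_iff R N).1 hRN⟩ := ⟨_, rfl⟩
    obtain rfl : R = τ.1.1 := by rw [hτ]
    have h2 : e τ u = 1 := by
      refine lift_ker τ (e τ u) fun τ' β b hb => ?_
      have h3 := hu τ'.1.2 (cen τ.1.1 τ.1.2 τ.2.nN) τ'.1.1 (cen τ'.1.1 τ'.1.2 τ'.2.nN)
        ((isLocal_iff _ _).2 τ'.2) (hZ τ) (hZ τ') β (((e τ).trans b).trans (e τ').symm)
        (fun v => by
          rw [he τ', he τ]
          simp only [MulEquiv.trans_apply, MulEquiv.apply_symm_apply]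
          exact hb (e τ v))
      rw [he τ'] at h3
      simpa only [MulEquiv.trans_apply, MulEquiv.apply_symm_apply] using h3
    exact (e τ).injective (h2.trans (map_one _).symm)

/-- The criterion for a lifting system. -/
theorem criterion {G : Type} [Group G] [Finite G] (h1 : CZ G) (U : Subgroup G → Type)
    [∀ R, Group (U R)] [∀ R, Finite (U R)] (f : ∀ R, U R →* G) (hf : LiftSys G U f)
    (hT : ∀ (R N Z : Subgroup G) [Z.Normal], IsLocal R N →
      Z = Subgroup.centralizer (R : Set G) → ∀ p, Critical p R Z (f R) → Tame p R N Z (f R)) :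
    {F : Formation | F.IsSub (form G)}.Finite ↔
      ∀ (R N Z : Subgroup G) [Z.Normal] (p : ℕ), IsLocal R N →
        Z = Subgroup.centralizer (R : Set G) → ¬ Critical p R Z (f R) := by
  have hZ : ∀ τ : Cop.TT G, Inn.cen τ.1.1 τ.1.2 τ.2.nN =
      Subgroup.centralizer (τ.1.1 : Set G) := fun τ => Tz.cen_eq τ.2 (h1 _ _ τ.2)
  constructor
  · intro hfin R N Z _ p hRN hZR hc
    have hloc := (isLocal_iff R N).1 hRN
    have hRn := hloc.nR
    obtain ⟨A, B, D, H, Y, hA, hB, hD, hRA, hAB, hBA, hpB, hch, hHZ, hYH, hpH, hfix, hDZ, hother,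
      hker⟩ := hT R N Z hRN hZR p hc
    have hZ' : ∀ g : G, g ∈ Z ↔ ∀ r ∈ R, g * r = r * g := by
      intro g
      rw [hZR, Subgroup.mem_centralizer_iff]
      exact ⟨fun H r hr => (H r hr).symm, fun H r hr => (H r hr).symm⟩
    have hS : Str.Dat G (U R) R N Z (f R) :=
      { loc := hloc
        cen := hZ'
        NZ := by
          intro n hn
          rw [hZ']
          intro r hr
          have h5 : ⁅n, r⁆ ∈ ⁅N, R⁆ := Subgroup.commutator_mem_commutator hn hr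
          rw [h1 _ _ hloc, Subgroup.mem_bot] at h5
          exact commutatorElement_eq_one_iff_commute.1 h5
        ran := hf.ran R N hRN
        perf := hf.perf R N hRN
        cent := fun u hu => hf.cent R N hRN u (by rw [← hZR]; exact hu)
        lift := fun σ => hf.lift R N Z R N Z hRN hRN hZR hZR σ }
    exact Str.inf_covD hc.1 hS hD hDZ
      (fun L M hLM hi => hother L M ((isLocal_iff L M).2 hLM) hi)
      ⟨A, B, H, Y, hA, hB, hRA, hAB.le, hBA, hpB, hch, hYH.le, hHZ, hpH, hker, hfix⟩ hfin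
  · intro hcrit
    have hsurj : ∀ τ : Cop.TT G,
        Function.Surjective (QuotientGroup.mk' (Inn.cen τ.1.1 τ.1.2 τ.2.nN)) := fun τ =>
      QuotientGroup.mk'_surjective _
    have hTB : ∀ (τ : Cop.TT G) (x : G), (x : Cop.TA G τ) ∈ Tw.TB G τ ↔
        x ∈ τ.1.1 ⊔ Inn.cen τ.1.1 τ.1.2 τ.2.nN := by
      intro τ x
      have e : τ.1.1 ⊔ Inn.cen τ.1.1 τ.1.2 τ.2.nN =
          (Tw.TB G τ).comap (QuotientGroup.mk' (Inn.cen τ.1.1 τ.1.2 τ.2.nN)) := by
        unfold Tw.TB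
        rw [Subgroup.comap_map_eq, QuotientGroup.ker_mk']
      rw [e]
      exact Iff.rfl
    let S : Tx.XSys G (fun τ => U τ.1.1) :=
      { T := Set.univ
        ep := fun τ => (QuotientGroup.mk' (Inn.cen τ.1.1 τ.1.2 τ.2.nN)).comp (f τ.1.1)
        perf := fun τ => hf.perf _ _ ((isLocal_iff _ _).2 τ.2)
        cent := fun τ z hz x => hf.cent _ _ ((isLocal_iff _ _).2 τ.2) z (by
          rw [← hZ τ]
          exact (QuotientGroup.eq_one_iff _).1 hz) x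
        lift := fun τ _ τ' β _ => hf.lift τ.1.1 τ.1.2 (Inn.cen τ.1.1 τ.1.2 τ.2.nN) τ'.1.1 τ'.1.2
          (Inn.cen τ'.1.1 τ'.1.2 τ'.2.nN) ((isLocal_iff _ _).2 τ.2) ((isLocal_iff _ _).2 τ'.2)
          (hZ τ) (hZ τ') β
        clos := fun τ _ τ' β _ => Set.mem_univ _
        bas := fun τ => ⟨f τ.1.1, hf.ran _ _ ((isLocal_iff _ _).2 τ.2), fun _ => rfl⟩ }
    refine Tx.mainX S h1 (fun τ hτ => absurd (Set.mem_univ τ) hτ)
      fun τ hτ H Y hS p hp hd B hB => ?_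
    rw [Cov.card_rel]
    intro hd'
    refine hcrit τ.1.1 τ.1.2 (Inn.cen τ.1.1 τ.1.2 τ.2.nN) p ((isLocal_iff _ _).2 τ.2) (hZ τ)
      ⟨hp, H, Y, _, (fun u hu => (QuotientGroup.eq_one_iff _).1 (hS.1 u hu)), hS.2.1,
      (fun g b hb => ⟨(hS.2.2.1 (g : Cop.TA G τ) b fun u => hb u).1,
        (hS.2.2.1 (g : Cop.TA G τ) b fun u => hb u).2,
        fun hg => hB (g : Cop.TA G τ) hg b fun u => hb u⟩),
      (fun σ b hb hσ => hS.2.2.2 ⟨(σ, b), fun u => hb u, fun x => ?_⟩), hd, hd'⟩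
    obtain ⟨x, rfl⟩ := hsurj τ x
    obtain ⟨y, hy⟩ := hsurj τ (σ (x : Cop.TA G τ))
    have h2 := hσ x y hy.symm
    have h3 := (hTB τ _).2 h2
    change QuotientGroup.mk' (Tw.TB G τ) (σ (x : Cop.TA G τ)) =
      QuotientGroup.mk' (Tw.TB G τ) (x : Cop.TA G τ)
    rw [← hy]
    exact (QuotientGroup.eq.2 h3).symm

end Exi

end MP799fdf
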