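import Pool.Agent.Lib.MP_799fdf_al.Defs

/-! # The definitions used in the statement of the criterion -/

set_option autoImplicit false

open scoped commutatorElement

namespace MP799fdf

namespace Exi

section

variable {G : Type} [Group G]

/-- `R` is a perfect normal subgroup of `G`, and `N` is its largest proper `G`-normal subgroup. -/
def IsLocal (R N : Subgroup G) : Prop :=
  R.Normal ∧ N.Normal ∧ N < R ∧ ⁅R, R⁆ = R ∧
    ∀ M : Subgroup G, M.Normal → M ≤ R → M ≤ N ∨ M = R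

/-- The isomorphism `b : U → U'` is a lift of `σ : G / Z → G / Z'`: `f'(b(u)) Z' = σ(f(u) Z)`. -/
def IsLift {Z Z' : Subgroup G} [Z.Normal] [Z'.Normal] {U U' : Type} [Group U] [Group U']
    (f : U →* G) (f' : U' →* G) (σ : (G ⧸ Z) ≃* (G ⧸ Z')) (b : U ≃* U') : Prop :=
  ∀ u : U, ((f' (b u) : G) : G ⧸ Z') = σ ((f u : G) : G ⧸ Z)

/-- `σ` is trivial modulo `A / Z`. -/
def TrivMod (A : Subgroup G) {Z : Subgroup G} [Z.Normal] (σ : (G ⧸ Z) ≃* (G ⧸ Z)) : Prop :=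
  ∀ x y : G, σ (x : G ⧸ Z) = (y : G ⧸ Z) → x⁻¹ * y ∈ A

/-- For every local `R` the group `U R` is perfect, `f R` maps it onto `R`, the preimage of `C_G(R)` is central, and all
isomorphisms `G / C_G(R) → G / C_G(R')` have lifts. -/
structure LiftSys (G : Type) [Group G] (U : Subgroup G → Type) [∀ R, Group (U R)]
    (f : ∀ R, U R →* G) : Prop where
  perf : ∀ R N : Subgroup G, IsLocal R N → ⁅(⊤ : Subgroup (U R)), (⊤ : Subgroup (U R))⁆ = ⊤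
  ran : ∀ R N : Subgroup G, IsLocal R N → (f R).range = R
  cent : ∀ R N : Subgroup G, IsLocal R N →
    ∀ u, f R u ∈ Subgroup.centralizer (R : Set G) → ∀ v, u * v = v * u
  lift : ∀ (R N Z R' N' Z' : Subgroup G) [Z.Normal] [Z'.Normal], IsLocal R N → IsLocal R' N' →
    Z = Subgroup.centralizer (R : Set G) → Z' = Subgroup.centralizer (R' : Set G) →
      ∀ σ : (G ⧸ Z) ≃* (G ⧸ Z'), ∃ b : U R ≃* U R', IsLift (f R) (f R') σ b

/-- `p` is critical for `f : U → R`, `Z = C_G(R)`. -/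
def Critical {U : Type} [Group U] (p : ℕ) (R Z : Subgroup G) [Z.Normal] (f : U →* G) : Prop :=
  p.Prime ∧ ∃ (H Y : Subgroup U) (C : Subgroup G), (∀ u ∈ H, f u ∈ Z) ∧ Y < H ∧
    (∀ (g : G) (b : U ≃* U), IsLift f f (MulAut.conj (g : G ⧸ Z)) b →
      (∀ u ∈ H, b u ∈ H) ∧ (∀ u ∈ Y, b u ∈ Y) ∧ (g ∈ C → ∀ u ∈ H, b u * u⁻¹ ∈ Y)) ∧
    (∀ (σ : (G ⧸ Z) ≃* (G ⧸ Z)) (b : U ≃* U), IsLift f f σ b → TrivMod (R ⊔ Z) σ →
      ∀ u ∈ H, b u * u⁻¹ ∈ Y) ∧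
    p ∣ Y.relIndex H ∧ p ∣ (R ⊔ Z).relIndex C

/-- The additional condition for critical primes. -/
def Tame {U : Type} [Group U] (p : ℕ) (R N Z : Subgroup G) [Z.Normal] (f : U →* G) : Prop :=
  ∃ (A B D : Subgroup G) (H Y : Subgroup U), A.Normal ∧ B.Normal ∧ D.Normal ∧
    R ⊔ Z ≤ A ∧ A < B ∧ ⁅B, B⁆ ≤ A ∧ p ∣ A.relIndex B ∧
    (∀ (σ : (G ⧸ Z) ≃* (G ⧸ Z)) (x y : G), σ (x : G ⧸ Z) = (y : G ⧸ Z) → x ∈ A → y ∈ A) ∧
    (∀ u ∈ H, f u ∈ Z) ∧ Y < H ∧ p ∣ Y.relIndex H ∧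
    (∀ (σ : (G ⧸ Z) ≃* (G ⧸ Z)) (b : U ≃* U), IsLift f f σ b → TrivMod A σ →
      ∀ u ∈ H, b u * u⁻¹ ∈ Y) ∧
    D ≤ Z ∧ (∀ L M : Subgroup G, IsLocal L M → M.relIndex L = N.relIndex R → L = R ∨ L ≤ D) ∧
    ∀ u : U, (∀ (σ : (G ⧸ Z) ≃* (G ⧸ Z)) (b : U ≃* U), IsLift f f σ b → f (b u) ∈ D) → u ∈ Y

end

end Exi

end MP799fdf
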