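import Pool.Agent.Lib.MP_799fdf_al.Exi.Defs

set_option autoImplicit false

open scoped commutatorElement

namespace MP799fdf

namespace Exi

open Inn
open Cop (TT TA)
open Tw (TB TC)
open Tz (CZ)

private theorem x1_ne {G : Type} [Group G] (τ : TT G) : TB G τ ≠ ⊥ := by
  intro h
  have h1 : τ.1.1 ≤ τ.1.2 := by
    refine le_trans (le_inf le_rfl ?_) (loc_inf_cen τ.2)
    intro r hr
    have h2 : ((r : G) : TA G τ) ∈ TB G τ := ⟨r, hr, rfl⟩
    rw [h, Subgroup.mem_bot, QuotientGroup.eq_one_iff] at h2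
    exact h2
  exact absurd (lt_of_lt_of_le τ.2.lt h1) (lt_irrefl _)

private theorem x1_min {G : Type} [Group G] (τ : TT G) (M : Subgroup (TA G τ)) (hn : M.Normal)
    (hM : M ≤ TB G τ) : M = ⊥ ∨ M = TB G τ := by
  have hR := τ.2.nR
  have hM' : (M.comap (QuotientGroup.mk' (cen τ.1.1 τ.1.2 τ.2.nN)) ⊓ τ.1.1).Normal := by
    have h1 : (M.comap (QuotientGroup.mk' (cen τ.1.1 τ.1.2 τ.2.nN))).Normal := hn.comap _
    exact Subgroup.normal_inf_normal _ _
  rcases τ.2.max _ hM' inf_le_right with h1 | h1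
  · left
    rw [eq_bot_iff]
    intro m hm
    obtain ⟨r, hr, rfl⟩ := hM hm
    have h2 : r ∈ τ.1.2 := h1 ⟨hm, hr⟩
    rw [Subgroup.mem_bot]
    refine (QuotientGroup.eq_one_iff r).2 ?_
    rw [mem_cen]
    intro x _
    have h3 : ⁅r, x⁆ = r * (x * r⁻¹ * x⁻¹) := by
      rw [commutatorElement_def]
      group
    rw [h3]
    exact τ.1.2.mul_mem h2 (τ.2.nN.conj_mem _ (τ.1.2.inv_mem h2) x)
  · right
    refine le_antisymm hM ?_
    rintro _ ⟨r, hr, rfl⟩
    rw [← h1] at hr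
    exact hr.1

private theorem x1_one {G : Type} [Group G] (τ : TT G) (x : TA G τ)
    (hx : ∀ s ∈ TB G τ, x * s = s * x) : x = 1 := by
  obtain ⟨g, rfl⟩ := QuotientGroup.mk_surjective x
  rw [QuotientGroup.eq_one_iff, mem_cen]
  intro r hr
  have h1 := hx ((r : G) : TA G τ) ⟨r, hr, rfl⟩
  refine loc_inf_cen τ.2 ⟨?_, ?_⟩
  · rw [commutatorElement_def]
    exact τ.1.1.mul_mem (τ.2.nR.conj_mem r hr g) (τ.1.1.inv_mem hr)
  · have h2 : ((⁅g, r⁆ : G) : TA G τ) = 1 := by
      rw [commutatorElement_def, QuotientGroup.mk_mul, QuotientGroup.mk_mul, QuotientGroup.mk_mul,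
        QuotientGroup.mk_inv, QuotientGroup.mk_inv, h1]
      group
    exact (QuotientGroup.eq_one_iff _).1 h2

/-- Isomorphisms between the groups `G / C(R)` preserve `R C(R) / C(R)`.

PROOF. Let `Z = cen R N`, `S = TB G τ = R Z / Z ≤ TA G τ`. (a) `S ≠ ⊥`: `R ≤ Z` would give `⁅R, R⁆ ≤ N` (`mem_cen`). (b) `S` is a minimal
normal subgroup: if `M ≤ S` is normal in `G ⧸ Z`, let `M' = M.comap (mk' Z) ⊓ R`, normal in `G`, so `M' ≤ N` or `M' = R` (`τ.2.max`);
`M = M'.map (mk' Z)` (every element of `M ≤ S` is `r Z` with `r ∈ R`), so `M = ⊥` (as `N ≤ Z`: `⁅n, r⁆ ∈ N` for `n ∈ N`) or `M = S`.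
(c) if `x ∈ TA G τ` commutes with all elements of `S` then `x = 1`: `x = g Z`, `⁅g, r⁆ ∈ Z ⊓ R ≤ N` for `r ∈ R` (`loc_inf_cen τ.2`), so
`g ∈ Z`. Now let `M = S.map β`, a minimal normal subgroup of `TA G τ'`, `S' = TB G τ'`. If `M ⊓ S' = ⊥` then `M` and `S'` commute
(`Subgroup.commute_of_normal_of_disjoint` or by hand), so `M = ⊥` by (c), against (a). So `M ⊓ S' ≠ ⊥` and, by minimality of both,
`M = M ⊓ S' = S'`. -/
theorem tb_map {G : Type} [Group G] (τ τ' : TT G) (β : TA G τ ≃* TA G τ') :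
    (TB G τ).map β.toMonoidHom = TB G τ' := by
  have hnS : (TB G τ).Normal := inferInstance
  have hnS' : (TB G τ').Normal := inferInstance
  have hnM : ((TB G τ).map β.toMonoidHom).Normal := hnS.map _ β.surjective
  have hnI : ((TB G τ).map β.toMonoidHom ⊓ TB G τ').Normal := Subgroup.normal_inf_normal _ _
  have hne : (TB G τ).map β.toMonoidHom ⊓ TB G τ' ≠ ⊥ := by
    intro h
    apply x1_ne τ
    rw [eq_bot_iff]
    intro x hx
    rw [Subgroup.mem_bot]
    have h1 : β x = 1 := by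
      refine x1_one τ' (β x) ?_
      intro s hs
      exact Subgroup.commute_of_normal_of_disjoint _ _ hnM hnS' (disjoint_iff.2 h) (β x) s
        ⟨x, hx, rfl⟩ hs
    exact (map_eq_one_iff β β.injective).1 h1
  have h1 : TB G τ' ≤ (TB G τ).map β.toMonoidHom := by
    rcases x1_min τ' _ hnI inf_le_right with h | h
    · exact absurd h hne
    · exact inf_eq_right.1 h
  refine le_antisymm ?_ h1
  have hnC : (((TB G τ).map β.toMonoidHom ⊓ TB G τ').comap β.toMonoidHom).Normal := hnI.comap _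
  have hle : ((TB G τ).map β.toMonoidHom ⊓ TB G τ').comap β.toMonoidHom ≤ TB G τ := by
    intro x hx
    obtain ⟨y, hy, hxy⟩ := hx.1
    have h2 : y = x := β.injective hxy
    rw [← h2]
    exact hy
  rcases x1_min τ _ hnC hle with h | h
  · exfalso
    apply hne
    rw [eq_bot_iff]
    intro y hy
    obtain ⟨x, rfl⟩ := β.surjective y
    have h2 : x ∈ ((TB G τ).map β.toMonoidHom ⊓ TB G τ').comap β.toMonoidHom := hy
    rw [h, Subgroup.mem_bot] at h2
    rw [h2, map_one]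
    exact Subgroup.one_mem _
  · rintro _ ⟨x, hx, rfl⟩
    have hx' : x ∈ TB G τ := hx
    rw [← h] at hx'
    exact hx'.2

end Exi

end MP799fdf
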