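import Pool.Agent.Lib.MP_799fdf_al.Exi.X1

set_option autoImplicit false

open scoped commutatorElement

namespace MP799fdf

namespace Exi

open Inn
open Cop (TT TA)
open Tw (TB TC)
open Tz (CZ)

/-- PROOF. For `i = ⟨τ', σ⟩` : `σ (r Z) ∈ TB G τ'` by `tb_map`, so it is the coset of some `x i ∈ R'`; for `i = ⟨τ, refl⟩` take `x i = r`
(`classical`, `if h : i = ⟨τ, MulEquiv.refl _⟩ then r else ..`). -/
theorem exists_pp {G : Type} [Group G] (τ : TT G) (r : G) (hr : r ∈ τ.1.1) :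
    ∃ x ∈ PP τ, x ⟨τ, MulEquiv.refl _⟩ = r ∧
      ∀ i : Ix τ, x i ∈ i.1.1.1 ∧ ((x i : G) : TA G i.1) = i.2 ((r : G) : TA G τ) := by
  classical
  have hex : ∀ i : Ix τ, ∃ y : G, y ∈ i.1.1.1 ∧
      ((y : G) : TA G i.1) = i.2 ((r : G) : TA G τ) := by
    intro i
    have h1 : i.2 ((r : G) : TA G τ) ∈ (TB G τ).map i.2.toMonoidHom :=
      Subgroup.mem_map_of_mem i.2.toMonoidHom (Subgroup.mem_map_of_mem _ hr)
    rw [tb_map τ i.1 i.2] at h1
    obtain ⟨y, hy, hy2⟩ := h1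
    exact ⟨y, hy, hy2⟩
  choose y hy1 hy2 using hex
  have key : ∀ i : Ix τ, (if i = ⟨τ, MulEquiv.refl _⟩ then r else y i) ∈ i.1.1.1 ∧
      (((if i = ⟨τ, MulEquiv.refl _⟩ then r else y i : G)) : TA G i.1) =
        i.2 ((r : G) : TA G τ) := by
    intro i
    by_cases h : i = ⟨τ, MulEquiv.refl _⟩
    · subst h
      rw [if_pos rfl]
      exact ⟨hr, rfl⟩
    · rw [if_neg h]
      exact ⟨hy1 i, hy2 i⟩
  exact ⟨fun i => if i = ⟨τ, MulEquiv.refl _⟩ then r else y i, ⟨r, hr, key⟩, if_pos rfl, key⟩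

/-- PROOF. The image of `PP τ` under evaluation at `⟨τ, refl⟩` is `R` (`exists_pp`; `⊆` from the definition), so the image of
`UU τ = ⁅PP τ, PP τ⁆` is `⁅R, R⁆ = R` (`Subgroup.map_commutator`). -/
theorem pp_range {G : Type} [Group G] (τ : TT G) : (pp τ).range = τ.1.1 := by
  have hPP : (PP τ).map (Pi.evalMonoidHom (fun _ => G) (⟨τ, MulEquiv.refl _⟩ : Ix τ)) =
      τ.1.1 := by
    ext g
    constructor
    · rintro ⟨x, ⟨r, _, hx⟩, rfl⟩
      exact (hx ⟨τ, MulEquiv.refl _⟩).1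
    · intro hg
      obtain ⟨x, hx, hx0, _⟩ := exists_pp τ g hg
      exact ⟨x, hx, hx0⟩
  rw [pp, ← MonoidHom.map_range, Subgroup.range_subtype, UU, Subgroup.map_commutator, hPP,
    τ.2.perf]

end Exi

end MP799fdf
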