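import Pool.Agent.Lib.MP_799fdf_al.Exi.X2

set_option autoImplicit false

open scoped commutatorElement

namespace MP799fdf

namespace Exi

open Inn
open Cop (TT TA)
open Tw (TB TC)
open Tz (CZ)

/-- If two elements of `PP τ` have the same class `r` modulo `Z`, they differ by a central element.

PROOF. `x, y ∈ PP τ` with `(x i₀ : TA G τ) = (y i₀ : TA G τ)`, `i₀ = ⟨τ, refl⟩`. By definition of `PP`, `(x i₀) = (r : TA G τ)` for the `r` of `x`,
and the same for `y`, so `x i` and `y i` have the same class in `TA G i.1`, and `(x i)⁻¹ * y i ∈ R' ⊓ cen R' N' = R' ⊓ C(R')` commutes with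
the elements of `R'` (`Tz.cen_eq i.1.2 (h1 _ _ i.1.2)`, `Subgroup.mem_centralizer_iff`), in particular with `z i` for `z ∈ PP τ`. -/
theorem pp_central {G : Type} [Group G] (h1 : CZ G) (τ : TT G) (x y : Ix τ → G) (hx : x ∈ PP τ)
    (hy : y ∈ PP τ) (hxy : ((x ⟨τ, MulEquiv.refl _⟩ : G) : TA G τ) = (y ⟨τ, MulEquiv.refl _⟩ : G)) :
    ∀ z ∈ PP τ, (x⁻¹ * y) * z = z * (x⁻¹ * y) := by
  obtain ⟨r, _, hx'⟩ := hx
  obtain ⟨s, _, hy'⟩ := hy
  have hrs : ((r : G) : TA G τ) = (s : G) := by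
    have e1 := (hx' ⟨τ, MulEquiv.refl _⟩).2
    have e2 := (hy' ⟨τ, MulEquiv.refl _⟩).2
    exact e1.symm.trans (hxy.trans e2)
  intro z hz
  obtain ⟨t, _, hz'⟩ := hz
  funext i
  have e : ((x i : G) : TA G i.1) = (y i : G) := by rw [(hx' i).2, (hy' i).2, hrs]
  have h2 := QuotientGroup.eq.1 e
  rw [Tz.cen_eq i.1.2 (h1 _ _ i.1.2), Subgroup.mem_centralizer_iff] at h2
  exact (h2 (z i) (hz' i).1).symm

private theorem x3_comm {H : Type} [Group H] {a b u v : H} (d2 : Commute u b)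
    (d3 : Commute u v) (d4 : Commute v a) : ⁅a * u, b * v⁆ = ⁅a, b⁆ := by
  have c2 : Commute v a⁻¹ := Commute.inv_right d4
  calc ⁅a * u, b * v⁆ = a * (u * (b * v)) * u⁻¹ * a⁻¹ * v⁻¹ * b⁻¹ := by
        rw [commutatorElement_def]
        group
    _ = a * b * (v * a⁻¹) * v⁻¹ * b⁻¹ := by
        rw [(d2.mul_right d3).eq]
        group
    _ = ⁅a, b⁆ := by
        rw [c2.eq, commutatorElement_def]
        group

private theorem x3_le {G : Type} [Group G] (τ : TT G) : UU τ ≤ PP τ := by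
  unfold UU
  rw [Subgroup.commutator_le]
  intro x hx y hy
  rw [commutatorElement_def]
  exact (PP τ).mul_mem ((PP τ).mul_mem ((PP τ).mul_mem hx hy) ((PP τ).inv_mem hx))
    ((PP τ).inv_mem hy)

private theorem x3_ex {G : Type} [Group G] (h1 : CZ G) (τ : TT G) (x : Ix τ → G) (hx : x ∈ PP τ) :
    ∃ u ∈ UU τ, ∀ z ∈ PP τ, Commute (u⁻¹ * x) z := by
  have h2 : x ⟨τ, MulEquiv.refl _⟩ ∈ τ.1.1 := by
    obtain ⟨r, _, hx'⟩ := hx
    exact (hx' ⟨τ, MulEquiv.refl _⟩).1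
  obtain ⟨u, hu⟩ := (pp_range τ).ge h2
  refine ⟨u, u.2, fun z hz => ?_⟩
  refine pp_central h1 τ u x (x3_le τ u.2) hx ?_ z hz
  rw [← hu, pp_apply]

/-- PROOF. `⁅UU τ, UU τ⁆ = UU τ`: for `x, y ∈ PP τ` choose (`pp_range`) `u, v ∈ UU τ` with `u i₀ = x i₀`, `v i₀ = y i₀`; `x = u * k`,
`y = v * l` with `k, l` commuting with all elements of `PP τ` (`pp_central`; `UU τ ≤ PP τ` by `Subgroup.commutator_le_self`), so
`⁅x, y⁆ = ⁅u, v⁆ ∈ ⁅UU τ, UU τ⁆`. Then transfer to `⁅(⊤ : Subgroup (UU τ)), ⊤⁆ = ⊤` (`Knf.perf_top`, in `Knf/BasA.lean`, does this transfer; copy its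
proof). -/
theorem uu_perf {G : Type} [Group G] (h1 : CZ G) (τ : TT G) :
    ⁅(⊤ : Subgroup (UU τ)), (⊤ : Subgroup (UU τ))⁆ = ⊤ := by
  have h : ⁅UU τ, UU τ⁆ = UU τ := by
    apply le_antisymm
    · rw [Subgroup.commutator_le]
      intro x hx y hy
      rw [commutatorElement_def]
      exact (UU τ).mul_mem ((UU τ).mul_mem ((UU τ).mul_mem hx hy) ((UU τ).inv_mem hx))
        ((UU τ).inv_mem hy)
    · have h2 : ⁅PP τ, PP τ⁆ ≤ ⁅UU τ, UU τ⁆ := by
        rw [Subgroup.commutator_le]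
        intro x hx y hy
        obtain ⟨u, hu, hk⟩ := x3_ex h1 τ x hx
        obtain ⟨v, hv, hl⟩ := x3_ex h1 τ y hy
        have hul := x3_le τ hu
        have hvl := x3_le τ hv
        have e : ⁅u * (u⁻¹ * x), v * (v⁻¹ * y)⁆ = ⁅u, v⁆ :=
          x3_comm (hk v hvl) (hk _ ((PP τ).mul_mem ((PP τ).inv_mem hvl) hy)) (hl u hul)
        rw [mul_inv_cancel_left, mul_inv_cancel_left] at e
        rw [e]
        exact Subgroup.commutator_mem_commutator hu hv
      exact h2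
  apply Subgroup.map_injective (UU τ).subtype_injective
  rw [Subgroup.map_commutator, ← MonoidHom.range_eq_map, (UU τ).range_subtype, h]

/-- PROOF. `pp_central` for `1` and `u`. -/
theorem uu_cent {G : Type} [Group G] (h1 : CZ G) (τ : TT G) (u : UU τ)
    (hu : ((pp τ u : G) : TA G τ) = 1) (v : UU τ) : u * v = v * u := by
  have h2 := pp_central h1 τ 1 (u : Ix τ → G) (PP τ).one_mem (x3_le τ u.2) (by
    rw [← pp_apply, hu]
    rfl) v (x3_le τ v.2)
  rw [inv_one, one_mul] at h2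
  exact Subtype.ext h2

end Exi

end MP799fdf
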