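import Pool.Agent.Lib.MP_799fdf_al.Exi.X2

set_option autoImplicit false

open scoped commutatorElement

namespace MP799fdf

namespace Exi

open Inn
open Cop (TT TA)
open Tw (TB TC)
open Tz (CZ)

/-- reindexing along `β` -/
private def reixHom {G : Type} [Group G] {τ τ' : TT G} (β : TA G τ ≃* TA G τ') :
    (Ix τ → G) →* (Ix τ' → G) where
  toFun x := fun i => x ⟨i.1, β.trans i.2⟩
  map_one' := rfl
  map_mul' _ _ := rfl

private theorem reix_pp {G : Type} [Group G] {τ τ' : TT G} (β : TA G τ ≃* TA G τ') :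
    (PP τ).map (reixHom β) ≤ PP τ' := by
  rintro _ ⟨x, ⟨r, hr, hx⟩, rfl⟩
  have h1 : β ((r : G) : TA G τ) ∈ (TB G τ).map β.toMonoidHom :=
    Subgroup.mem_map_of_mem β.toMonoidHom (Subgroup.mem_map_of_mem _ hr)
  rw [tb_map τ τ' β] at h1
  obtain ⟨s, hs, hs2⟩ := h1
  exact ⟨s, hs, fun i => ⟨(hx ⟨i.1, β.trans i.2⟩).1,
    (hx ⟨i.1, β.trans i.2⟩).2.trans (congrArg i.2 hs2.symm)⟩⟩

private theorem reix_uu {G : Type} [Group G] {τ τ' : TT G} (β : TA G τ ≃* TA G τ')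
    (x : Ix τ → G) (hx : x ∈ UU τ) : reixHom β x ∈ UU τ' := by
  have h1 : (UU τ).map (reixHom β) ≤ UU τ' := by
    rw [UU, Subgroup.map_commutator]
    exact Subgroup.commutator_mono (reix_pp β) (reix_pp β)
  exact h1 (Subgroup.mem_map_of_mem _ hx)

private theorem reix_inv {G : Type} [Group G] {τ τ' : TT G} (β : TA G τ ≃* TA G τ')
    (x : Ix τ → G) : reixHom β.symm (reixHom β x) = x := by
  funext i
  change x ⟨i.1, β.trans (β.symm.trans i.2)⟩ = x i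
  have h1 : β.trans (β.symm.trans i.2) = i.2 := by
    ext a
    simp
  rw [h1]

private theorem reix_inv2 {G : Type} [Group G] {τ τ' : TT G} (β : TA G τ ≃* TA G τ')
    (x : Ix τ' → G) : reixHom β (reixHom β.symm x) = x := by
  funext i
  change x ⟨i.1, β.symm.trans (β.trans i.2)⟩ = x i
  have h1 : β.symm.trans (β.trans i.2) = i.2 := by
    ext a
    simp
  rw [h1]

/-- The lift of `β`.

PROOF. Reindexing: `e : Ix τ' ≃ Ix τ`, `⟨τ'', σ⟩ ↦ ⟨τ'', β.trans σ⟩` (inverse `⟨τ'', σ⟩ ↦ ⟨τ'', β.symm.trans σ⟩`), so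
`(Ix τ → G) ≃* (Ix τ' → G)`, `x ↦ x ∘ e` (`MulEquiv.piCongrLeft` or a hand made `MulEquiv`). It maps `PP τ` onto `PP τ'`: if `x ∈ PP τ` with `r`,
then by `tb_map` `β (r Z) = (r' : TA G τ')` with `r' ∈ R'`, and `x (e ⟨τ'', σ⟩)` has the class `σ (β (r Z)) = σ (r')`; the same for the
inverse. So it maps `UU τ` onto `UU τ'` (`Subgroup.map_commutator`); take `MulEquiv.subgroupMap` and `MulEquiv.subgroupCongr`. -/
theorem exists_lift {G : Type} [Group G] (τ τ' : TT G) (β : TA G τ ≃* TA G τ') :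
    ∃ b : UU τ ≃* UU τ', ∀ (u : UU τ) (i : Ix τ'),
      (b u : Ix τ' → G) i = (u : Ix τ → G) ⟨i.1, β.trans i.2⟩ := by
  refine ⟨{ toFun := fun u => ⟨reixHom β u.1, reix_uu β u.1 u.2⟩
            invFun := fun v => ⟨reixHom β.symm v.1, reix_uu β.symm v.1 v.2⟩
            left_inv := fun u => Subtype.ext (reix_inv β u.1)
            right_inv := fun v => Subtype.ext (reix_inv2 β v.1)
            map_mul' := fun u v => Subtype.ext (map_mul (reixHom β) u.1 v.1) }, ?_⟩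
  intro u i
  rfl

/-- PROOF. `pp τ' (b u) = (b u) ⟨τ', refl⟩ = u ⟨τ', β.trans refl⟩ = u ⟨τ', β⟩`, whose class is `β (r Z)`, and `pp τ u = u ⟨τ, refl⟩` has the class
`r Z` (the `r` of `u ∈ UU τ ≤ PP τ`, `Subgroup.commutator_le_self`). -/
theorem lift_class {G : Type} [Group G] (τ τ' : TT G) (β : TA G τ ≃* TA G τ') (b : UU τ ≃* UU τ')
    (hb : ∀ (u : UU τ) (i : Ix τ'), (b u : Ix τ' → G) i = (u : Ix τ → G) ⟨i.1, β.trans i.2⟩)
    (u : UU τ) : ((pp τ' (b u) : G) : TA G τ') = β ((pp τ u : G) : TA G τ) := by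
  have hP : (u : Ix τ → G) ∈ PP τ :=
    Subgroup.commutator_le_self (PP τ) u.2
  obtain ⟨r, hr, hx⟩ := hP
  have h1 := (hx ⟨τ', β.trans (MulEquiv.refl _)⟩).2
  have h2 := (hx ⟨τ, MulEquiv.refl _⟩).2
  rw [pp_apply, pp_apply, hb u ⟨τ', MulEquiv.refl _⟩]
  refine h1.trans ?_
  change β ((r : G) : TA G τ) = _
  exact congrArg β h2.symm

/-- PROOF. `u i = pp i.1 (b u)` for `i = ⟨τ', β⟩` and the `b` of `exists_lift`. -/
theorem lift_ker {G : Type} [Group G] (τ : TT G) (u : UU τ)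
    (hu : ∀ (τ' : TT G) (β : TA G τ ≃* TA G τ') (b : UU τ ≃* UU τ'),
      (∀ u : UU τ, ((pp τ' (b u) : G) : TA G τ') = β ((pp τ u : G) : TA G τ)) →
        pp τ' (b u) = 1) : u = 1 := by
  apply Subtype.ext
  funext i
  obtain ⟨τ', β⟩ := i
  obtain ⟨b, hb⟩ := exists_lift τ τ' β
  have h1 := hu τ' β b (lift_class τ τ' β b hb)
  rw [pp_apply, hb u ⟨τ', MulEquiv.refl _⟩] at h1
  have h2 : β.trans (MulEquiv.refl _) = β := by
    ext a
    rfl
  have h3 : (u : Ix τ → G) ⟨τ', β⟩ = 1 := by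
    rw [← h2]
    exact h1
  exact h3

end Exi

end MP799fdf
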