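import Pool.Agent.Lib.MP_799fdf_al.Exi.X3
import Pool.Agent.Lib.MP_799fdf_al.Exi.X4

set_option autoImplicit false

open scoped commutatorElement

namespace MP799fdf

namespace Exi

open Inn
open Cop (TT TA)
open Tw (TB TC)
open Tz (CZ)

/-- The groups indexed by subgroups.

PROOF. For every `R : Subgroup G` there are `V : Type`, a group structure, finite, and `π : V →* G` such that for every `τ : TT G` with
`τ.1.1 = R` there is `e : V ≃* UU τ` with `π = (pp τ).comp e`: if there is such a `τ₀`, take `V = UU τ₀`, `π = pp τ₀`; another `τ` with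
`τ.1.1 = R` is equal to `τ₀` (`loc_unique`, `Subtype.ext`, `Prod.ext`). If there is none, take `V = Unit`, `π = 1`. Then `choose`.
Finiteness: `Ix τ → G` is finite: `TT G` is finite, `TA G τ ≃* TA G τ'` is finite
(`Finite.of_injective (fun s => (s : TA G τ → TA G τ')) DFunLike.coe_injective`). -/
theorem exists_fam {G : Type} [Group G] [Finite G] :
    ∃ (U : Subgroup G → Type) (_ : ∀ R, Group (U R)) (_ : ∀ R, Finite (U R))
      (f : ∀ R, U R →* G), ∀ τ : TT G, ∃ e : U τ.1.1 ≃* UU τ, ∀ u, f τ.1.1 u = pp τ (e u) := by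
  have hfin : ∀ τ : TT G, Finite (UU τ) := by
    intro τ
    have h1 : ∀ τ' : TT G, Finite (TA G τ ≃* TA G τ') := fun τ' =>
      Finite.of_injective (fun s : TA G τ ≃* TA G τ' => (s : TA G τ → TA G τ'))
        DFunLike.coe_injective
    have h2 : Finite (Ix τ) := inferInstance
    have h3 : Finite (Ix τ → G) := inferInstance
    infer_instance
  have key : ∀ R : Subgroup G, ∃ (V : Type) (_ : Group V) (_ : Finite V) (π : V →* G),
      ∀ τ : TT G, τ.1.1 = R → ∃ e : V ≃* UU τ, ∀ u, π u = pp τ (e u) := by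
    intro R
    by_cases h : ∃ τ₀ : TT G, τ₀.1.1 = R
    · obtain ⟨τ₀, h0⟩ := h
      refine ⟨UU τ₀, inferInstance, hfin τ₀, pp τ₀, fun τ hτ => ?_⟩
      have e : τ = τ₀ := by
        apply Subtype.ext
        have h1 : τ.1.1 = τ₀.1.1 := hτ.trans h0.symm
        apply Prod.ext h1
        have h2 := τ.2
        rw [h1] at h2
        exact loc_unique h2 τ₀.2
      subst e
      exact ⟨MulEquiv.refl _, fun u => rfl⟩
    · exact ⟨Unit, inferInstance, inferInstance, 1, fun τ hτ => (h ⟨τ, hτ⟩).elim⟩
  choose U hg hf f h using key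
  exact ⟨U, hg, hf, f, fun τ => h τ.1.1 τ rfl⟩

end Exi

end MP799fdf
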